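import Pool.Agent.helper93.TV.Spec2

/-! Row tv:RK : bases exist near a point where they exist. -/

namespace Pool.Agent.helper93.TV

open BigOperators Finset Matrix

variable {I V : Type} [Fintype I] [DecidableEq I] [Fintype V] [DecidableEq V]

/-- The block of Phi (mu (bp b) (bp b)) at the vertices a, d. -/
noncomputable def rkP (D : FD I V) (X : Finset I) (c : V → V → V → V → ℂ) (m : ℕ)
    (bp : I → List V) (a b d : I) : Matrix (lists V m) (lists V m) ℂ := fun p q =>
  if D.en a p.1 = d then D.Phi X c m m m (mu (bp b) (bp b)) a p.1 q.1 else 0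

theorem rk_op (D : FD I V) (X : Finset I) (m : ℕ) (bp : I → List V) (hb : D.Base X m bp)
    (b : I) : D.Op X m m (mu (bp b) (bp b)) := by
  intro p q h
  unfold mu at h
  split_ifs at h with h1
  · obtain ⟨rfl, rfl⟩ := h1
    obtain ⟨h1, h2, h3⟩ := hb b
    exact ⟨h1, h1, h2, h2, rfl⟩
  · exact absurd rfl h

theorem rk_supp (D : FD I V) (X : Finset I) (c : V → V → V → V → ℂ) (m : ℕ)
    (bp : I → List V) (hb : D.Base X m bp) (hC : D.Calc X c m) (a b : I) (p q : List V)
    (h : D.Phi X c m m m (mu (bp b) (bp b)) a p q ≠ 0) :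
    p ∈ lists V m ∧ q ∈ lists V m ∧ D.ok X a p ∧ D.ok X a q ∧ D.en a p = D.en a q :=
  (hC.fam m (by omega) m (by omega) _ (rk_op D X m bp hb b)).1.supp a p q h

theorem rk_herm (D : FD I V) (X : Finset I) (c : V → V → V → V → ℂ) (m : ℕ)
    (bp : I → List V) (hb : D.Base X m bp) (hC : D.Calc X c m) (a b : I) (p q : List V) :
    star (D.Phi X c m m m (mu (bp b) (bp b)) a q p) =
      D.Phi X c m m m (mu (bp b) (bp b)) a p q := by
  have h := hC.adj m (by omega) m (by omega) _ (rk_op D X m bp hb b)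
  have h2 : (fun p q => star (mu (bp b) (bp b) q p)) = mu (bp b) (bp b) := by
    funext p q
    unfold mu
    by_cases h1 : q = bp b <;> by_cases h2 : p = bp b <;> simp [h1, h2]
  rw [h2] at h
  have h3 := congrFun (congrFun (congrFun h a) p) q
  exact h3.symm

theorem rk_idem (D : FD I V) (X : Finset I) (c : V → V → V → V → ℂ) (m : ℕ)
    (bp : I → List V) (hb : D.Base X m bp) (hC : D.Calc X c m) (a b : I) (p q : List V) :
    ∑ w ∈ lists V m, D.Phi X c m m m (mu (bp b) (bp b)) a p w *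
      D.Phi X c m m m (mu (bp b) (bp b)) a w q =
      D.Phi X c m m m (mu (bp b) (bp b)) a p q := by
  have h := hC.mul m (by omega) m (by omega) m (by omega) _ _ (rk_op D X m bp hb b)
    (rk_op D X m bp hb b)
  have h2 : (fun p q => ∑ w ∈ lists V m, mu (bp b) (bp b) p w * mu (bp b) (bp b) w q) =
      mu (bp b) (bp b) := by
    funext p q
    rw [Finset.sum_eq_single (bp b)]
    · unfold mu
      by_cases h1 : p = bp b <;> by_cases h2 : q = bp b <;> simp [h1, h2]
    · intro w _ hw
      simp [mu, hw]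
    · intro hn
      exact absurd (hb b).1 hn
  rw [h2] at h
  have h3 := congrFun (congrFun (congrFun h a) p) q
  exact h3.symm

theorem rkP_herm (D : FD I V) (X : Finset I) (c : V → V → V → V → ℂ) (m : ℕ)
    (bp : I → List V) (hb : D.Base X m bp) (hC : D.Calc X c m) (a b d : I) :
    (rkP D X c m bp a b d)ᴴ = rkP D X c m bp a b d := by
  ext p q
  rw [Matrix.conjTranspose_apply]
  unfold rkP
  by_cases h0 : D.Phi X c m m m (mu (bp b) (bp b)) a p.1 q.1 = 0
  · have h1 := rk_herm D X c m bp hb hC a b p.1 q.1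
    rw [h0] at h1
    have h2 : D.Phi X c m m m (mu (bp b) (bp b)) a q.1 p.1 = 0 := by
      rwa [star_eq_zero] at h1
    simp [h0, h2]
  · have h1 := (rk_supp D X c m bp hb hC a b _ _ h0).2.2.2.2
    rw [← h1]
    split_ifs
    · exact rk_herm D X c m bp hb hC a b p.1 q.1
    · simp

theorem rkP_idem (D : FD I V) (X : Finset I) (c : V → V → V → V → ℂ) (m : ℕ)
    (bp : I → List V) (hb : D.Base X m bp) (hC : D.Calc X c m) (a b d : I) :
    rkP D X c m bp a b d * rkP D X c m bp a b d = rkP D X c m bp a b d := by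
  ext p q
  rw [Matrix.mul_apply]
  unfold rkP
  by_cases h1 : D.en a p.1 = d
  · simp only [h1, if_true]
    rw [← rk_idem D X c m bp hb hC a b p.1 q.1]
    rw [← Finset.sum_coe_sort (lists V m) (fun w => D.Phi X c m m m (mu (bp b) (bp b)) a p.1 w *
      D.Phi X c m m m (mu (bp b) (bp b)) a w q.1)]
    refine Finset.sum_congr rfl fun w _ => ?_
    by_cases h0 : D.Phi X c m m m (mu (bp b) (bp b)) a p.1 w.1 = 0
    · simp [h0]
    · have h2 := (rk_supp D X c m bp hb hC a b _ _ h0).2.2.2.2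
      rw [if_pos (h2.symm.trans h1)]
  · simp [h1]

theorem rkP_trace (D : FD I V) (X : Finset I) (c : V → V → V → V → ℂ) (m : ℕ)
    (bp : I → List V) (J : V → List V → ℂ) (hJ : D.JS X c m bp J) (a b d : I) :
    (rkP D X c m bp a b d).trace =
      (Fintype.card {β : V // D.s1 β = a ∧ D.s2 β = b ∧ D.t β = d} : ℂ) := by
  have h1 : (rkP D X c m bp a b d).trace = ∑ p ∈ lists V m,
      ∑ β ∈ univ.filter (fun β => D.s1 β = a ∧ D.s2 β = b),
        if D.t β = d then J β p * star (J β p) else 0 := by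
    unfold Matrix.trace
    rw [← Finset.sum_coe_sort (lists V m)]
    refine Finset.sum_congr rfl fun p _ => ?_
    rw [Matrix.diag_apply]
    unfold rkP
    rw [← hJ.comp a b p.1 p.1]
    by_cases h : D.en a p.1 = d
    · rw [if_pos h]
      refine Finset.sum_congr rfl fun β hβ => ?_
      rw [Finset.mem_filter] at hβ
      by_cases h0 : J β p.1 = 0
      · simp [h0]
      · have h2 := (hJ.supp β p.1 h0).2.2
        rw [hβ.2.1] at h2
        rw [if_pos (h2.symm.trans h), mul_comm]
    · rw [if_neg h]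
      symm
      refine Finset.sum_eq_zero fun β hβ => ?_
      rw [Finset.mem_filter] at hβ
      by_cases h0 : J β p.1 = 0
      · simp [h0]
      · have h2 := (hJ.supp β p.1 h0).2.2
        rw [hβ.2.1] at h2
        rw [if_neg (fun h3 => h (h2.trans h3))]
  rw [h1, Finset.sum_comm]
  have h3 : ∀ β ∈ univ.filter (fun β => D.s1 β = a ∧ D.s2 β = b),
      ∑ p ∈ lists V m, (if D.t β = d then J β p * star (J β p) else 0) =
        if D.t β = d then 1 else 0 := by
    intro β _
    by_cases h : D.t β = d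
    · simp only [h, if_true]
      have := hJ.orth β β rfl rfl
      rwa [if_pos rfl] at this
    · simp [h]
  rw [Finset.sum_congr rfl h3, ← Finset.sum_filter, Finset.sum_const, Fintype.card_subtype,
    Finset.filter_filter, nsmul_eq_mul, mul_one]
  have h4 : (univ.filter fun β : V => (D.s1 β = a ∧ D.s2 β = b) ∧ D.t β = d) =
      univ.filter fun β : V => D.s1 β = a ∧ D.s2 β = b ∧ D.t β = d := by
    ext β
    simp [and_assoc]
  rw [h4]

/-- The bases at one point, from the traces. -/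
theorem rk_bases (hPJ : PJ_out) (D : FD I V) (X : Finset I) (c : V → V → V → V → ℂ) (m : ℕ)
    (bp : I → List V) (hb : D.Base X m bp) (hC : D.Calc X c m)
    (htr : ∀ a b d, (rkP D X c m bp a b d).trace =
      (Fintype.card {β : V // D.s1 β = a ∧ D.s2 β = b ∧ D.t β = d} : ℂ)) :
    ∃ J, D.JS X c m bp J := by
  classical
  have hex : ∀ a b d : I, ∃ J : Matrix {β : V // D.s1 β = a ∧ D.s2 β = b ∧ D.t β = d}
      (lists V m) ℂ, J * Jᴴ = 1 ∧ Jᴴ * J = rkP D X c m bp a b d := fun a b d =>
    (hPJ (lists V m) (rkP D X c m bp a b d) (rkP_herm D X c m bp hb hC a b d)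
      (rkP_idem D X c m bp hb hC a b d)).2 _ (htr a b d)
  choose K hK1 hK2 using hex
  have hsupp : ∀ a b d β p, K a b d β p ≠ 0 → D.ok X a p.1 ∧ D.en a p.1 = d := by
    intro a b d β p h
    have h1 : rkP D X c m bp a b d p p ≠ 0 := by
      rw [← hK2 a b d, Matrix.mul_apply]
      have h2 : ∀ i, (K a b d)ᴴ p i * K a b d i p = ((‖K a b d i p‖ ^ 2 : ℝ) : ℂ) := by
        intro i
        rw [Matrix.conjTranspose_apply, ← starRingEnd_apply, mul_comm, Complex.mul_conj,
          Complex.normSq_eq_norm_sq]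
      rw [Finset.sum_congr rfl (fun i _ => h2 i), ← Complex.ofReal_sum]
      rw [Ne, Complex.ofReal_eq_zero]
      have h3 : 0 < ∑ i, ‖K a b d i p‖ ^ 2 :=
        Finset.sum_pos' (fun i _ => by positivity) ⟨β, Finset.mem_univ _, by positivity⟩
      exact h3.ne'
    unfold rkP at h1
    split_ifs at h1 with h2
    · exact ⟨(rk_supp D X c m bp hb hC a b _ _ h1).2.2.1, h2⟩
    · exact absurd rfl h1
  let J : V → List V → ℂ := fun β p => if h : p ∈ lists V m then
    K (D.s1 β) (D.s2 β) (D.t β) ⟨β, rfl, rfl, rfl⟩ ⟨p, h⟩ else 0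
  have hJd : ∀ β p (h : p ∈ lists V m), J β p =
    K (D.s1 β) (D.s2 β) (D.t β) ⟨β, rfl, rfl, rfl⟩ ⟨p, h⟩ := fun β p h => by
    simp only [J, dif_pos h]
  have hJ' : ∀ a b d β (h : D.s1 β = a ∧ D.s2 β = b ∧ D.t β = d) (p : lists V m),
      J β p.1 = K a b d ⟨β, h⟩ p := by
    intro a b d β h p
    obtain ⟨rfl, rfl, rfl⟩ := h
    exact hJd β p.1 p.2
  have hJs : ∀ β p, J β p ≠ 0 → p ∈ lists V m ∧ D.ok X (D.s1 β) p ∧
      D.en (D.s1 β) p = D.t β := by
    intro β p h
    by_cases hp : p ∈ lists V m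
    · rw [hJd β p hp] at h
      exact ⟨hp, hsupp _ _ _ _ _ h⟩
    · exact absurd (by simp only [J, dif_neg hp]) h
  refine ⟨J, hJs, ?_, ?_⟩
  · intro β β' h1 h2
    by_cases h3 : D.t β = D.t β'
    · have h4 := congrFun (congrFun (hK1 (D.s1 β) (D.s2 β) (D.t β)) ⟨β, rfl, rfl, rfl⟩)
        ⟨β', h1.symm, h2.symm, h3.symm⟩
      rw [Matrix.mul_apply, Matrix.one_apply] at h4
      rw [← Finset.sum_coe_sort (lists V m) (fun p => J β p * star (J β' p))]
      have h5 : ∀ p : lists V m, J β p.1 * star (J β' p.1) =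
          K (D.s1 β) (D.s2 β) (D.t β) ⟨β, rfl, rfl, rfl⟩ p *
          (K (D.s1 β) (D.s2 β) (D.t β))ᴴ p ⟨β', h1.symm, h2.symm, h3.symm⟩ := by
        intro p
        rw [Matrix.conjTranspose_apply, hJ' _ _ _ β ⟨rfl, rfl, rfl⟩ p,
          hJ' _ _ _ β' ⟨h1.symm, h2.symm, h3.symm⟩ p]
      rw [Finset.sum_congr rfl (fun p _ => h5 p), h4]
      simp only [Subtype.mk.injEq]
    · have h4 : β ≠ β' := fun h => h3 (by rw [h])
      rw [if_neg h4]
      refine Finset.sum_eq_zero fun p _ => ?_
      by_cases h5 : J β p = 0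
      · rw [h5, zero_mul]
      by_cases h6 : J β' p = 0
      · rw [h6, star_zero, mul_zero]
      have h7 := (hJs β p h5).2.2
      have h8 := (hJs β' p h6).2.2
      rw [← h1] at h8
      exact absurd (h7.symm.trans h8) h3
  · intro a b p q
    by_cases h0 : ∃ β, (D.s1 β = a ∧ D.s2 β = b) ∧ star (J β p) * J β q ≠ 0
    · obtain ⟨β₀, ⟨h1, h2⟩, h3⟩ := h0
      have hp0 : J β₀ p ≠ 0 := by
        intro h
        rw [h] at h3
        simp at h3
      have hq0 : J β₀ q ≠ 0 := by
        intro h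
        rw [h] at h3
        simp at h3
      obtain ⟨hp, _, hpe⟩ := hJs β₀ p hp0
      obtain ⟨hq, _, hqe⟩ := hJs β₀ q hq0
      rw [h1] at hpe hqe
      have h4 := congrFun (congrFun (hK2 a b (D.t β₀)) ⟨p, hp⟩) ⟨q, hq⟩
      rw [Matrix.mul_apply] at h4
      have h5 : rkP D X c m bp a b (D.t β₀) ⟨p, hp⟩ ⟨q, hq⟩ =
          D.Phi X c m m m (mu (bp b) (bp b)) a p q := by
        unfold rkP
        rw [if_pos hpe]
      rw [h5] at h4
      rw [← h4]
      have h6 : ∑ β ∈ univ.filter (fun β => D.s1 β = a ∧ D.s2 β = b), star (J β p) * J β q =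
          ∑ β ∈ univ.filter (fun β => D.s1 β = a ∧ D.s2 β = b ∧ D.t β = D.t β₀),
            star (J β p) * J β q := by
        symm
        refine Finset.sum_subset ?_ ?_
        · intro β hβ
          simp only [Finset.mem_filter, Finset.mem_univ, true_and] at hβ ⊢
          exact ⟨hβ.1, hβ.2.1⟩
        · intro β hβ hn
          simp only [Finset.mem_filter, Finset.mem_univ, true_and] at hβ hn
          by_cases h7 : J β p = 0
          · rw [h7, star_zero, zero_mul]
          · have h8 := (hJs β p h7).2.2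
            rw [hβ.1] at h8
            exact absurd ⟨hβ.1, hβ.2, h8.symm.trans hpe⟩ hn
      rw [h6, ← Finset.sum_subtype_of_mem
        (p := fun β => D.s1 β = a ∧ D.s2 β = b ∧ D.t β = D.t β₀)
        (s := univ.filter (fun β => D.s1 β = a ∧ D.s2 β = b ∧ D.t β = D.t β₀))
        (fun β => star (J β p) * J β q) (by
          intro β hβ
          simpa using hβ)]
      refine Finset.sum_bij (fun β _ => β) ?_ ?_ ?_ ?_
      · intro β _
        exact Finset.mem_univ _
      · intro β _ β' _ h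
        exact h
      · intro β _
        refine ⟨β, ?_, rfl⟩
        simp [β.2.1, β.2.2.1, β.2.2.2]
      · intro β _
        rw [Matrix.conjTranspose_apply, ← hJ' a b (D.t β₀) β.1 β.2 ⟨p, hp⟩,
          ← hJ' a b (D.t β₀) β.1 β.2 ⟨q, hq⟩]
    · push Not at h0
      rw [Finset.sum_eq_zero (fun β hβ => by
        rw [Finset.mem_filter] at hβ
        exact h0 β hβ.2)]
      by_contra hne
      have hne' := Ne.symm hne
      obtain ⟨hp, hq, hpo, hqo, hpq⟩ := rk_supp D X c m bp hb hC a b p q hne'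
      have h4 := congrFun (congrFun (hK2 a b (D.en a p)) ⟨p, hp⟩) ⟨q, hq⟩
      have h5 : rkP D X c m bp a b (D.en a p) ⟨p, hp⟩ ⟨q, hq⟩ =
          D.Phi X c m m m (mu (bp b) (bp b)) a p q := by
        unfold rkP
        rw [if_pos rfl]
      rw [h5, Matrix.mul_apply, Finset.sum_eq_zero] at h4
      · exact hne h4
      · intro β _
        rw [Matrix.conjTranspose_apply, ← hJ' a b (D.en a p) β.1 β.2 ⟨p, hp⟩,
          ← hJ' a b (D.en a p) β.1 β.2 ⟨q, hq⟩]
        exact h0 β.1 ⟨β.2.1, β.2.2.1⟩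

theorem RK : RK_stmt := by
  intro hPC _ _ _ _ hCT hPJ
  intro I V _ _ _ _ D X m bp _ hcnt hb x hx hJ
  obtain ⟨J, hJ⟩ := hJ
  have hcont : ∀ a b d, Continuous fun y : D.Q X × Bool → ℝ =>
      (rkP D X (D.cof X y) m bp a b d).trace := by
    intro a b d
    unfold Matrix.trace
    refine continuous_finsetSum _ fun p _ => ?_
    simp only [Matrix.diag_apply]
    unfold rkP
    by_cases h : D.en a p.1 = d
    · simp only [h, if_true]
      exact (hCT I V D X m bp).1 m m _ a p.1 p.1
    · simp only [h, if_false]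
      exact continuous_const
  refine ⟨⋂ a : I, ⋂ b : I, ⋂ d : I, (fun y : D.Q X × Bool → ℝ =>
      (rkP D X (D.cof X y) m bp a b d).trace) ⁻¹' Metric.ball
      (Fintype.card {β : V // D.s1 β = a ∧ D.s2 β = b ∧ D.t β = d} : ℂ) (1 / 2), ?_, ?_⟩
  · rw [Filter.iInter_mem]
    intro a
    rw [Filter.iInter_mem]
    intro b
    rw [Filter.iInter_mem]
    intro d
    refine (hcont a b d).continuousAt.preimage_mem_nhds ?_
    have h := rkP_trace D X (D.cof X x) m bp J hJ a b d
    simp only [h]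
    exact Metric.ball_mem_nhds _ (by norm_num)
  · rintro y ⟨hyU, hyF⟩
    have hC : D.Calc X (D.cof X y) m := hPC I V D X (D.cof X y) m hyF hcnt
    refine rk_bases hPJ D X (D.cof X y) m bp hb hC ?_
    intro a b d
    simp only [Set.mem_iInter] at hyU
    have h1 := hyU a b d
    rw [Set.mem_preimage, Metric.mem_ball] at h1
    obtain ⟨⟨k, hk⟩, _⟩ := hPJ (lists V m) (rkP D X (D.cof X y) m bp a b d)
      (rkP_herm D X (D.cof X y) m bp hb hC a b d) (rkP_idem D X (D.cof X y) m bp hb hC a b d)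
    rw [hk] at h1 ⊢
    rw [Complex.dist_eq] at h1
    have h2 : ‖(k : ℂ) - (Fintype.card {β : V // D.s1 β = a ∧ D.s2 β = b ∧ D.t β = d} : ℂ)‖ =
        |((k : ℝ) - (Fintype.card {β : V // D.s1 β = a ∧ D.s2 β = b ∧ D.t β = d} : ℝ))| := by
      rw [← Complex.ofReal_natCast, ← Complex.ofReal_natCast, ← Complex.ofReal_sub,
        Complex.norm_real, Real.norm_eq_abs]
    rw [h2] at h1
    have h3 : |((k : ℤ) - (Fintype.card {β : V // D.s1 β = a ∧ D.s2 β = b ∧ D.t β = d} : ℤ))|
        < 1 := by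
      have h4 : ((|((k : ℤ) - (Fintype.card {β : V // D.s1 β = a ∧ D.s2 β = b ∧
          D.t β = d} : ℤ))| : ℤ) : ℝ) < 1 := by
        push_cast
        linarith
      exact_mod_cast h4
    have h5 := Int.abs_lt_one_iff.1 h3
    have h6 : k = Fintype.card {β : V // D.s1 β = a ∧ D.s2 β = b ∧ D.t β = d} := by omega
    rw [← h6]

end Pool.Agent.helper93.TV
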