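import Pool.Agent.helper93.TV.Spec1

/-!
# Project tv, row RU (helper84): the rotation is unitary
-/

set_option autoImplicit false

namespace Pool.Agent.helper93.TV

open BigOperators Finset Matrix

theorem RU : RU_stmt := by
  classical
  intro I V _ _ _ _ D F hF
  have hdu : ∀ a b : I, D.du a = D.du b → a = b := by
    intro a b h
    have := congrArg D.du h
    rwa [D.du_du, D.du_du] at this
  have hmain : D.Rm F * (D.Rm F)ᴴ = 1 := by
    ext κ κ'
    rw [Matrix.mul_apply]
    have hrow := hF.uf.conn.row κ (D.eta (D.t κ)) κ' (D.eta (D.t κ')) (D.s1_eta _).symm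
      (mem_univ _) (mem_univ _)
    have hR : (if κ = κ' ∧ D.eta (D.t κ) = D.eta (D.t κ') then (1 : ℂ) else 0) =
        (1 : Matrix V V ℂ) κ κ' := by
      rw [Matrix.one_apply]
      by_cases h : κ = κ'
      · subst h; simp
      · simp [h]
    rw [← hR, ← hrow]
    refine Finset.sum_congr rfl (fun γ _ => ?_)
    rw [Matrix.conjTranspose_apply]
    show F κ (D.eta (D.t κ)) γ (D.eta (D.s1 κ)) *
      star (F κ' (D.eta (D.t κ')) γ (D.eta (D.s1 κ'))) = _
    rw [Finset.sum_eq_single (D.eta (D.s1 κ))]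
    · by_cases hs : D.s1 κ = D.s1 κ'
      · rw [hs]
      · -- both sides vanish
        have h1 : F κ' (D.eta (D.t κ')) γ (D.eta (D.s1 κ)) = 0 := by
          by_contra hne
          obtain ⟨⟨_, _, h3, _⟩, _⟩ := hF.uf.conn.supp _ _ _ _ hne
          rw [D.s1_eta] at h3
          exact hs h3.symm
        rw [h1]
        by_cases hA : F κ (D.eta (D.t κ)) γ (D.eta (D.s1 κ)) = 0
        · rw [hA, zero_mul, zero_mul]
        · by_cases hB : F κ' (D.eta (D.t κ')) γ (D.eta (D.s1 κ')) = 0
          · rw [hB]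
          · exfalso
            obtain ⟨⟨_, h2, _⟩, _⟩ := hF.uf.conn.supp _ _ _ _ hA
            obtain ⟨⟨_, h2', _⟩, _⟩ := hF.uf.conn.supp _ _ _ _ hB
            rw [D.s2_eta] at h2 h2'
            exact hs (hdu _ _ (h2.symm.trans h2'))
    · intro l' _ hl'
      by_cases hA : F κ (D.eta (D.t κ)) γ l' = 0
      · rw [hA, zero_mul]
      · exfalso
        obtain ⟨⟨_, _, h3, _, _, h6⟩, _⟩ := hF.uf.conn.supp _ _ _ _ hA
        rw [D.t_eta] at h6
        have := D.eta_unique l' h6.symm
        rw [← h3] at this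
        exact hl' this
    · intro h
      exact absurd (mem_univ _) h
  exact ⟨hmain, mul_eq_one_comm.mp hmain⟩

end Pool.Agent.helper93.TV
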